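import Mathlib
import Pool.Agent.W307.RT.Stm

/-!
# Project TT (helper34): ranks of elliptic curves with full 2-torsion, ordered by height

The average of `2 ^ rank` over all the curves `y² = x (x - A) (x - B)`, `A`, `B` in a box, is
bounded. Definitions and statements of the parts. Continues the projects RK (helper262) and RT
(helper307) of the starting library. New: forms of odd degree (the signs at the primes that divide
the values are not determined by the forms, but are averaged) and all the quadratic twists by `g`.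
-/

set_option autoImplicit false

namespace Pool.Agent.K6.H34.TT

open Finset Pool.Agent.W262.RK Pool.Agent.W307.RT

/-- the part of `x` prime to `g` -/
def pg (g : ℕ) (x : ℤ) : ℤ :=
  ((x.natAbs.factorization.prod fun p k => if p ∣ g then 1 else p ^ k : ℕ) : ℤ)

/-- the numbers whose symbols are the signs -/
def kp (g : ℕ) (f : Fin 3 → ℤ) (j : Fin 3) : ℤ :=
  if j = 0 then -(g * f 1) else if j = 1 then -(g * f 0) else g * f 0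

/-- the primes with a negative sign -/
def EE (s : Fin 3 → ℕ) (g : ℕ) (f : Fin 3 → ℤ) : Finset ℕ :=
  (∏ j, s j).primeFactors.filter (fun p => ∃ j, p ∣ s j ∧ jacobiSym (kp g f j) p = -1)

/-- the local conditions for the class `c` and the sign `e` -/
def LC (c : Fin 3) (e v w h g : Bool) : Prop :=
  if c = 0 then v = w ∧ xor h g = (v && e)
  else if c = 1 then w = false ∧ g = (v && e)
  else v = false ∧ h = (w && e)

/-- the local conditions for the tuple `s`; `E` is the set of the primes with a negative sign -/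
def LR (s : Fin 3 → ℕ) (E : Finset ℕ) (p : ℕ) (v w h g : Bool) : Prop :=
  ∀ j, p ∣ s j → LC j (decide (p ∈ E)) v w h g

/-- the average of `NL` over the signs -/
noncomputable def NR (s : Fin 3 → ℕ) : ℝ :=
  (1 / 2) ^ (∏ j, s j).primeFactors.card *
    ∑ E ∈ (∏ j, s j).primeFactors.powerset, (NL (∏ j, s j) (LR s E) : ℝ)

/-- MAR (helper34): the average of `NR` -/
def MAR : Prop := ∀ c : ℕ, ∃ z0 : ℕ, ∀ z, z0 ≤ z → ∃ C : ℝ, ∀ y, z < y →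
  ∑ s ∈ Tup (Fin 3) z y, NR s * ∏ j, gw 1 c (s j) ≤ C * (Real.log y) ^ 3

/-- SUBR (helper34): adding primes -/
def SUBR : Prop := ∀ z y : ℕ, 2 ≤ z → ∀ s e : Fin 3 → ℕ, (fun j => s j * e j) ∈ Tup (Fin 3) z y →
  NR (fun j => s j * e j) ≤ 4 ^ (∑ j, (e j).primeFactors.card) * NR s

/-- RANKR (helper34): the bound of the rank at a point -/
def RANKR : Prop := ∀ (α β : Fin 3 → ℤ) (z : ℕ), Bg α β z → α 0 - α 1 = α 2 → β 0 - β 1 = β 2 →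
  ∀ (X y k g : ℕ) (u v : ℤ), IsCoprime u v → (∀ j, fv α β u v j ≠ 0) → g ≠ 0 →
  (∀ j, (fv α β u v j).natAbs ≤ X ^ 3) → 1 ≤ X → 1 ≤ y → X < (y + 1) ^ k →
    2 ^ Module.finrank ℤ
      (EAB (g * fv α β u v 0) (g * fv α β u v 1)).toAffine.Point ≤
      4 ^ (z + 2) * (4 ^ 9) ^ k * 4 ^ g.primeFactors.card *
        4 ^ (∑ j, (S2 z y (fun j => pg g (fv α β u v j)) j).primeFactors.card) *
        NL (∏ j, S1 z y (fun j => pg g (fv α β u v j)) j)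
          (LR (S1 z y (fun j => pg g (fv α β u v j)))
            (EE (S1 z y (fun j => pg g (fv α β u v j))) g (fv α β u v)))

/-- SGN: the number of the residues with given symbols. -/
def SGN : Prop := ∀ (M : ℕ) (κ : ℕ → ℤ) (E : Finset ℕ), Squarefree M → Odd M →
  (∀ p ∈ M.primeFactors, ¬ (p : ℤ) ∣ κ p) →
  ((((range M).filter (fun r : ℕ => ∀ p ∈ M.primeFactors,
    jacobiSym (κ p * r) p = if p ∈ E then -1 else 1)).card : ℕ) : ℝ) ≤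
      M * (1 / 2) ^ M.primeFactors.card

/-- AVHR: the average of a multiplicative function close to one in a residue class. Adapt
`Pool.Agent.W216.RT.AVH`: the number of the multiples of `d` in the class is at most
`X / (m d) + 1 ≤ X / (m d) + (X / d) ^ (1 / 2)` for `d ≤ X`. -/
def AVHR : Prop := ∀ c z : ℕ, 2 * c + 2 ≤ z → ∃ C : ℝ, 0 ≤ C ∧ ∀ X m r : ℕ, 1 ≤ m → m ^ 2 ≤ X →
  ∑ v ∈ (Icc 1 X).filter (fun v => v ≡ r [MOD m]),
    ∏ p ∈ v.primeFactors.filter (fun p => z < p ∧ ¬ p ∣ m), (p : ℝ) / ((p : ℝ) - c) ≤ C * (X / m)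

/-- CNTR: the number of coprime pairs with given small prime factors of the values and given signs.
Adapt `Pool.Agent.W29.RT.CNT2` (`cnt2_of`), with `SGN` and `AVHR` for the sum over the second
variable. -/
def CNTR : Prop := ∀ (α β : Fin 3 → ℤ) (z : ℕ), Bg α β z →
  ∃ (C : ℝ) (K y0 : ℕ), 0 ≤ C ∧ 1 ≤ K ∧ ∀ X y Y g : ℕ, g ≠ 0 → y0 ≤ y → z < y → y ^ K ≤ X →
  ∀ s ∈ Tup (Fin 3) z y, ∀ w ∈ Tup (Fin 3) z y, ∀ h ∈ Tup (Fin 3) y Y,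
  (∏ j, s j * w j * h j) ^ 8 ≤ X → ∀ E : Finset ℕ,
    (((Icc 1 X ×ˢ Icc 1 X).filter (fun t : ℕ × ℕ => t.1.Coprime t.2 ∧
      (∀ j, fv α β (t.1 : ℤ) (t.2 : ℤ) j ≠ 0) ∧
      S1 z y (fun j => pg g (fv α β (t.1 : ℤ) (t.2 : ℤ) j)) = s ∧
      S2 z y (fun j => pg g (fv α β (t.1 : ℤ) (t.2 : ℤ) j)) = w ∧
      (∀ j, (h j : ℤ) ∣ pg g (fv α β (t.1 : ℤ) (t.2 : ℤ) j)) ∧
      EE s g (fv α β (t.1 : ℤ) (t.2 : ℤ)) = E)).card : ℝ) ≤
      C * X ^ 2 * 2 ^ g.primeFactors.card * (1 / 2) ^ (∏ j, s j).primeFactors.card *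
        (∏ j, gw 1 3 (s j)) * (∏ j, gw 1 3 (w j) / w j) * (∏ j, 1 / (h j : ℝ)) / (Real.log y) ^ 3

/-- OMG: `A ^ ω(n)` is small. -/
def OMG : Prop := ∀ (A : ℕ) (ε : ℝ), 0 < ε → ∃ C : ℝ, 0 ≤ C ∧ ∀ n : ℕ, 1 ≤ n →
  (A : ℝ) ^ n.primeFactors.card ≤ C * (n : ℝ) ^ ε

/-- AVGR (helper34): the average over the coprime pairs in a quadrant and their twists. -/
def AVGR : Prop := ∀ α β : Fin 3 → ℤ, (∀ j, α j ≠ 0) → (∀ j l, j ≠ l → Res α β j l ≠ 0) →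
  α 0 - α 1 = α 2 → β 0 - β 1 = β 2 → ∃ C : ℝ, 0 ≤ C ∧ ∀ X : ℕ, 1 ≤ X →
    ∑ t ∈ ((Icc 1 X) ×ˢ (Icc 1 (X ^ 2)) ×ˢ (Icc 1 (X ^ 2))).filter (fun t : ℕ × ℕ × ℕ =>
      t.1 * t.2.1 ≤ X ^ 2 ∧ t.1 * t.2.2 ≤ X ^ 2 ∧ t.2.1.Coprime t.2.2 ∧
        ∀ j, fv α β (t.2.1 : ℤ) (t.2.2 : ℤ) j ≠ 0),
      (2 : ℝ) ^ Module.finrank ℤ (EAB (t.1 * fv α β (t.2.1 : ℤ) (t.2.2 : ℤ) 0)
        (t.1 * fv α β (t.2.1 : ℤ) (t.2.2 : ℤ) 1)).toAffine.Point ≤ C * X ^ 4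

/-- BOX: the average over all the pairs in a box. From `AVGR` (with `α = (1, 2, -1) e₁`,
`β = (0, 1, -1) e₂`, `e₁, e₂ = ± 1`: `(A, B) = g (a, b)`, `g = gcd (A, B)`, `a = e₁ u`,
`b = 2 e₁ u + e₂ v`, `X = √(3 N) + 1`), and for `g > X` and `B = 2 A` from the trivial bound
(`DESC4` with `m = 1`, `OMG`). -/
def BOX : Prop := ∃ C : ℝ, 0 ≤ C ∧ ∀ N : ℕ, 1 ≤ N →
  ∑ t ∈ ((Icc (-(N : ℤ)) N) ×ˢ (Icc (-(N : ℤ)) N)).filter
      (fun t : ℤ × ℤ => t.1 ≠ 0 ∧ t.2 ≠ 0 ∧ t.1 ≠ t.2),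
    (2 : ℝ) ^ Module.finrank ℤ (EAB t.1 t.2).toAffine.Point ≤ C * N ^ 2

/-- the curve `y² = x³ + A x + B` over `ℚ` -/
def E (A B : ℤ) : WeierstrassCurve ℚ := ⟨0, 0, 0, (A : ℚ), (B : ℚ)⟩

open Classical in
/-- The pairs `(A, B)` of integers such that `4 A³ + 27 B² ≠ 0`, there is no prime `p` with
`p⁴ ∣ A` and `p⁶ ∣ B`, the height `max (4 |A|³) (27 B²)` is at most `H`, and `Z/2 x Z/2` embeds in
the group of the rational points of `y² = x³ + A x + B`. -/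
noncomputable def Fam (H : ℕ) : Finset (ℤ × ℤ) :=
  ((Icc (-(H : ℤ)) H) ×ˢ (Icc (-(H : ℤ)) H)).filter (fun c : ℤ × ℤ =>
    4 * c.1 ^ 3 + 27 * c.2 ^ 2 ≠ 0 ∧ 4 * |c.1| ^ 3 ≤ H ∧ 27 * c.2 ^ 2 ≤ H ∧
    (∀ p : ℕ, p.Prime → ¬ ((p : ℤ) ^ 4 ∣ c.1 ∧ (p : ℤ) ^ 6 ∣ c.2)) ∧
    ∃ f : ZMod 2 × ZMod 2 →+ (E c.1 c.2).toAffine.Point, Function.Injective f)

/-- PAR2: the curves of `Fam H` inject into the box, with the same ranks.
(See `Pool.Agent.W605.RT.PAR4`, `Pool.Agent.W261.RT.iso`, `Pool.Agent.W307.RT.Tors`.) -/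
def PAR2 : Prop := ∃ (C : ℕ) (F : ℤ × ℤ → ℤ × ℤ), ∀ H : ℕ,
  Set.InjOn F (Fam H : Set (ℤ × ℤ)) ∧ ∀ c ∈ Fam H, (F c).1 ≠ 0 ∧ (F c).2 ≠ 0 ∧
    (F c).1 ≠ (F c).2 ∧ (F c).1.natAbs ^ 6 ≤ C * H ∧ (F c).2.natAbs ^ 6 ≤ C * H ∧
    Module.finrank ℤ (E c.1 c.2).toAffine.Point =
      Module.finrank ℤ (EAB (F c).1 (F c).2).toAffine.Point

/-- LOW2: there are many curves: `r₁ < r₂` coprime positive roots, `r₃ = - r₁ - r₂`.
(See `Pool.Agent.W29.RT.LOW4`.) -/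
def LOW2 : Prop := ∃ (c : ℝ) (C T0 : ℕ), 0 < c ∧ ∀ T H : ℕ, T0 ≤ T → C * T ^ 6 ≤ H →
  c * T ^ 2 ≤ ((Fam H).card : ℝ)

end Pool.Agent.K6.H34.TT
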