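import Pool.Agent.K6.H34.TT.Rank

/-!
# Project TT, part AVGR: the average over the coprime pairs and their twists

Adapted from `Pool.Agent.W230.RT.Avg2` of the starting library.
-/

set_option autoImplicit false

namespace Pool.Agent.K6.H34.TT

open Finset Pool.Agent.W262.RK Pool.Agent.W307.RT Pool.Agent.W571.RT

/-- the sum over the twists -/
lemma twist_sum (homg : OMG) : ∃ C : ℝ, 0 ≤ C ∧ ∀ X : ℕ,
    ∑ g ∈ Icc 1 X, ((X ^ 2 / g : ℕ) : ℝ) ^ 2 * 8 ^ g.primeFactors.card ≤ C * (X : ℝ) ^ 4 := by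
  obtain ⟨C, hC, h⟩ := homg 8 (1 / 2) (by norm_num)
  have hsum : Summable (fun n : ℕ => 1 / (n : ℝ) ^ (3 / 2 : ℝ)) :=
    Real.summable_one_div_nat_rpow.2 (by norm_num)
  refine ⟨C * ∑' n : ℕ, 1 / (n : ℝ) ^ (3 / 2 : ℝ),
    mul_nonneg hC (tsum_nonneg fun n => by positivity), fun X => ?_⟩
  have h1 : ∀ g ∈ Icc 1 X, ((X ^ 2 / g : ℕ) : ℝ) ^ 2 * 8 ^ g.primeFactors.card ≤
      C * (X : ℝ) ^ 4 * (1 / (g : ℝ) ^ (3 / 2 : ℝ)) := by
    intro g hg
    rw [mem_Icc] at hg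
    have hg0 : (0 : ℝ) < g := by exact_mod_cast hg.1
    have h2 : ((X ^ 2 / g : ℕ) : ℝ) ≤ (X : ℝ) ^ 2 / g := by
      have := Nat.cast_div_le (α := ℝ) (m := X ^ 2) (n := g)
      push_cast at this
      exact this
    have h3 : (8 : ℝ) ^ g.primeFactors.card ≤ C * (g : ℝ) ^ (1 / 2 : ℝ) := by
      have := h g hg.1
      push_cast at this
      exact this
    have h4 : (g : ℝ) ^ (1 / 2 : ℝ) = (g : ℝ) ^ 2 * (1 / (g : ℝ) ^ (3 / 2 : ℝ)) := by
      rw [← Real.rpow_natCast (g : ℝ) 2, one_div ((g : ℝ) ^ (3 / 2 : ℝ)), ← Real.rpow_neg hg0.le,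
        ← Real.rpow_add hg0]
      norm_num
    calc ((X ^ 2 / g : ℕ) : ℝ) ^ 2 * 8 ^ g.primeFactors.card
        ≤ ((X : ℝ) ^ 2 / g) ^ 2 * (C * (g : ℝ) ^ (1 / 2 : ℝ)) := by
          apply mul_le_mul _ h3 (by positivity) (by positivity)
          exact pow_le_pow_left₀ (Nat.cast_nonneg _) h2 2
      _ = C * (X : ℝ) ^ 4 * (1 / (g : ℝ) ^ (3 / 2 : ℝ)) := by
          rw [h4]
          field_simp
  refine (sum_le_sum h1).trans ?_
  rw [← mul_sum]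
  have h5 : ∑ g ∈ Icc 1 X, 1 / (g : ℝ) ^ (3 / 2 : ℝ) ≤ ∑' n : ℕ, 1 / (n : ℝ) ^ (3 / 2 : ℝ) :=
    hsum.sum_le_tsum _ fun n _ => by positivity
  calc C * (X : ℝ) ^ 4 * ∑ g ∈ Icc 1 X, 1 / (g : ℝ) ^ (3 / 2 : ℝ)
      ≤ C * (X : ℝ) ^ 4 * ∑' n : ℕ, 1 / (n : ℝ) ^ (3 / 2 : ℝ) :=
        mul_le_mul_of_nonneg_left h5 (by positivity)
    _ = _ := by ring

/-- the family -/
def TX (α β : Fin 3 → ℤ) (X : ℕ) : Finset (ℕ × ℕ × ℕ) :=
  ((Icc 1 X) ×ˢ (Icc 1 (X ^ 2)) ×ˢ (Icc 1 (X ^ 2))).filter (fun t : ℕ × ℕ × ℕ =>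
      t.1 * t.2.1 ≤ X ^ 2 ∧ t.1 * t.2.2 ≤ X ^ 2 ∧ t.2.1.Coprime t.2.2 ∧
        ∀ j, fv α β (t.2.1 : ℤ) (t.2.2 : ℤ) j ≠ 0)

theorem avgr_of (hcnt : CNTR) (homg : OMG) (hant : ANT) (hmar : MAR) (hsub : SUBR)
    (hrank : RANKR) : AVGR := by
  intro α β hα hR hα2 hβ2
  classical
  obtain ⟨z0, hz0⟩ := hmar 3
  set z : ℕ := z0 + 8 + ∑ j, (α j).natAbs + ∑ j, ∑ l, (Res α β j l).natAbs with hz
  have hB : Bg α β z := by
    refine ⟨by rw [Fintype.card_fin]; omega, fun p hp hzp => ⟨fun j h => ?_, fun j l hjl h => ?_⟩⟩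
    · have h1 := Nat.le_of_dvd (Int.natAbs_pos.2 (hα j)) (Int.natCast_dvd.1 h)
      have h2 := single_le_sum (f := fun j => (α j).natAbs) (fun _ _ => Nat.zero_le _) (mem_univ j)
      omega
    · have h1 := Nat.le_of_dvd (Int.natAbs_pos.2 (hR j l hjl)) (Int.natCast_dvd.1 h)
      have h2 := single_le_sum (f := fun l => (Res α β j l).natAbs) (fun _ _ => Nat.zero_le _)
        (mem_univ l)
      have h3 := single_le_sum (f := fun j => ∑ l, (Res α β j l).natAbs) (fun _ _ => Nat.zero_le _)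
        (mem_univ j)
      omega
  have hz2 : 2 ≤ z := by omega
  obtain ⟨C', hC'⟩ := hz0 z (by omega)
  obtain ⟨C, K, y0, hC0, hK1, hcn⟩ := hcnt α β z hB
  obtain ⟨Cs, hCs0, hCs⟩ := twist_sum homg
  have hJ : Fintype.card (Fin 3) = 3 := Fintype.card_fin 3
  set y1 : ℕ := y0 + ∑ j, ((α j).natAbs + (β j).natAbs) + 1 with hy1
  have key := hant (Fin 3) (ℕ × ℕ × ℕ) (TX α β)
    (fun t j => pg t.1 (fv α β (t.2.1 : ℤ) (t.2.2 : ℤ) j)) (fun X => (X : ℝ) ^ 4) z NR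
    (fun t => (2 : ℝ) ^ Module.finrank ℤ (EAB (t.1 * fv α β (t.2.1 : ℤ) (t.2.2 : ℤ) 0)
        (t.1 * fv α β (t.2.1 : ℤ) (t.2.2 : ℤ) 1)).toAffine.Point)
    (C * 4 ^ (z + 2) * Cs) C' (4 ^ 9) K y1 (by rw [hJ]; omega) (fun X Y hXY => ?_)
    (fun X hX => ?_) (fun X ω hω => ?_) (fun s => ?_) (fun t => by positivity) (by positivity)
    (one_le_pow₀ (by norm_num)) hK1
    (fun y hy s e hse => hsub z y hz2 s e hse)
    (by rw [hJ]; exact hC') ?_
  · obtain ⟨C2, hC2⟩ := key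
    refine ⟨|C2|, abs_nonneg _, fun X hX => ?_⟩
    refine (hC2 X hX).trans ?_
    exact mul_le_mul_of_nonneg_right (le_abs_self _) (by positivity)
  · intro t ht
    unfold TX at ht ⊢
    rw [mem_filter, mem_product, mem_product, mem_Icc, mem_Icc, mem_Icc] at ht ⊢
    have h2 : X ^ 2 ≤ Y ^ 2 := Nat.pow_le_pow_left hXY 2
    exact ⟨⟨⟨ht.1.1.1, ht.1.1.2.trans hXY⟩, ⟨ht.1.2.1.1, ht.1.2.1.2.trans h2⟩,
      ⟨ht.1.2.2.1, ht.1.2.2.2.trans h2⟩⟩, ht.2.1.trans h2, ht.2.2.1.trans h2, ht.2.2.2⟩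
  · have : (1 : ℝ) ≤ X := by exact_mod_cast hX
    exact one_le_pow₀ this
  · unfold TX at hω
    rw [mem_filter] at hω
    have huv : IsCoprime ((ω.2.1 : ℕ) : ℤ) ((ω.2.2 : ℕ) : ℤ) :=
      Nat.isCoprime_iff_coprime.2 hω.2.2.2.1
    exact ⟨fun j => (pg_pos _ _).ne', fun p hp hzp j l hjl =>
      pg_un hB huv hω.2.2.2.2 ω.1 p hp hzp j l hjl⟩
  · unfold NR
    exact mul_nonneg (by positivity) (sum_nonneg fun _ _ => Nat.cast_nonneg _)
  intro X y Y k hy0 hzy hyK hk s hs w hw h hh h8 T' hT' hT2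
  rw [hJ]
  have hy00 : y0 ≤ y := by omega
  have hyX : y ≤ X := le_trans (Nat.le_self_pow (by omega) y) hyK
  have hX1 : 1 ≤ X := by omega
  set P := (∏ j, s j).primeFactors with hP
  set c1 : ℝ := 4 ^ (z + 2) * (4 ^ 9) ^ k * 4 ^ (∑ j, (w j).primeFactors.card) with hc1
  have hc10 : 0 ≤ c1 := by positivity
  -- the bound of the rank
  have h1 : ∀ t ∈ T', (2 : ℝ) ^ Module.finrank ℤ
      (EAB (t.1 * fv α β (t.2.1 : ℤ) (t.2.2 : ℤ) 0)
        (t.1 * fv α β (t.2.1 : ℤ) (t.2.2 : ℤ) 1)).toAffine.Point ≤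
      c1 * (4 ^ t.1.primeFactors.card *
        (NL (∏ j, s j) (LR s (EE s t.1 (fv α β (t.2.1 : ℤ) (t.2.2 : ℤ)))) : ℝ)) := by
    intro t ht
    have ht1 := hT' ht
    unfold TX at ht1
    rw [mem_filter, mem_product, mem_product, mem_Icc, mem_Icc, mem_Icc] at ht1
    obtain ⟨hts, htw, _⟩ := hT2 t ht
    have hr := hrank α β z hB hα2 hβ2 X y k t.1 (t.2.1 : ℤ) (t.2.2 : ℤ)
      (Nat.isCoprime_iff_coprime.2 ht1.2.2.2.1) ht1.2.2.2.2 (by omega) (fun j => by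
        unfold fv
        have h3 := Int.natAbs_add_le (α j * ((t.2.1 : ℕ) : ℤ)) (β j * ((t.2.2 : ℕ) : ℤ))
        rw [Int.natAbs_mul, Int.natAbs_mul, Int.natAbs_natCast, Int.natAbs_natCast] at h3
        have h4 := single_le_sum (f := fun j => (α j).natAbs + (β j).natAbs)
          (fun _ _ => Nat.zero_le _) (mem_univ j)
        have h5 : t.2.1 ≤ X ^ 2 := ht1.1.2.1.2
        have h5' : t.2.2 ≤ X ^ 2 := ht1.1.2.2.2
        have h6 : (α j).natAbs + (β j).natAbs ≤ X := by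
          have h4' : (α j).natAbs + (β j).natAbs ≤ ∑ j, ((α j).natAbs + (β j).natAbs) := h4
          omega
        calc (α j * ((t.2.1 : ℕ) : ℤ) + β j * ((t.2.2 : ℕ) : ℤ)).natAbs
            ≤ (α j).natAbs * t.2.1 + (β j).natAbs * t.2.2 := h3
          _ ≤ (α j).natAbs * X ^ 2 + (β j).natAbs * X ^ 2 :=
              add_le_add (Nat.mul_le_mul_left _ h5) (Nat.mul_le_mul_left _ h5')
          _ = ((α j).natAbs + (β j).natAbs) * X ^ 2 := by ring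
          _ ≤ X * X ^ 2 := Nat.mul_le_mul_right _ h6
          _ = X ^ 3 := by ring) hX1 (by omega) hk
    have hts' : S1 z y (fun j => pg t.1 (fv α β (t.2.1 : ℤ) (t.2.2 : ℤ) j)) = s := hts
    have htw' : S2 z y (fun j => pg t.1 (fv α β (t.2.1 : ℤ) (t.2.2 : ℤ) j)) = w := htw
    rw [hts', htw'] at hr
    have hr' : (2 : ℝ) ^ Module.finrank ℤ
      (EAB (t.1 * fv α β (t.2.1 : ℤ) (t.2.2 : ℤ) 0)
        (t.1 * fv α β (t.2.1 : ℤ) (t.2.2 : ℤ) 1)).toAffine.Point ≤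
        4 ^ (z + 2) * (4 ^ 9) ^ k * 4 ^ t.1.primeFactors.card *
          4 ^ (∑ j, (w j).primeFactors.card) *
        (NL (∏ j, s j) (LR s (EE s t.1 (fv α β (t.2.1 : ℤ) (t.2.2 : ℤ)))) : ℝ) := by
      exact_mod_cast hr
    refine hr'.trans (le_of_eq ?_)
    rw [hc1]
    ring
  -- the fibres
  set Q : ℝ := (∏ j, gw 1 3 (s j)) * (∏ j, gw 1 3 (w j) / w j) * (∏ j, 1 / (h j : ℝ)) with hQ
  have hmaps : ∀ t ∈ T', (t.1, EE s t.1 (fv α β (t.2.1 : ℤ) (t.2.2 : ℤ))) ∈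
      Icc 1 X ×ˢ P.powerset := by
    intro t ht
    have ht1 := hT' ht
    unfold TX at ht1
    rw [mem_filter, mem_product] at ht1
    rw [mem_product, mem_powerset]
    refine ⟨ht1.1.1, ?_⟩
    unfold EE
    exact filter_subset _ _
  have hfib : ∀ g ∈ Icc 1 X, ∀ E : Finset ℕ,
      ((T'.filter (fun t => (t.1, EE s t.1 (fv α β (t.2.1 : ℤ) (t.2.2 : ℤ))) = (g, E))).card : ℝ) ≤
      C * ((X ^ 2 / g : ℕ) : ℝ) ^ 2 * 2 ^ g.primeFactors.card * (1 / 2) ^ P.card *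
        (∏ j, gw 1 3 (s j)) * (∏ j, gw 1 3 (w j) / w j) * (∏ j, 1 / (h j : ℝ)) /
        (Real.log y) ^ 3 := by
    intro g hg E
    rw [mem_Icc] at hg
    have hXZ : X ≤ X ^ 2 / g := by
      rw [Nat.le_div_iff_mul_le hg.1]
      calc X * g ≤ X * X := Nat.mul_le_mul_left _ hg.2
        _ = X ^ 2 := by ring
    refine le_trans ?_ (hcn (X ^ 2 / g) y Y g (by omega) hy00 hzy (hyK.trans hXZ) s hs w hw h hh
      (h8.trans hXZ) E)
    rw [Nat.cast_le]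
    apply card_le_card_of_injOn (fun t : ℕ × ℕ × ℕ => t.2)
    · intro t ht
      have ht' : t ∈ T'.filter (fun t => (t.1, EE s t.1 (fv α β (t.2.1 : ℤ) (t.2.2 : ℤ))) =
        (g, E)) := ht
      rw [mem_filter, Prod.mk.injEq] at ht'
      obtain ⟨htT, htg, htE⟩ := ht'
      have ht1 := hT' htT
      unfold TX at ht1
      rw [mem_filter, mem_product, mem_product, mem_Icc, mem_Icc, mem_Icc, htg] at ht1
      obtain ⟨hts, htw, hth⟩ := hT2 t htT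
      rw [htg] at htE
      simp only [htg] at hts htw hth
      simp only [coe_filter, Set.mem_setOf_eq, mem_product, mem_Icc]
      refine ⟨⟨⟨ht1.1.2.1.1, ?_⟩, ⟨ht1.1.2.2.1, ?_⟩⟩, ht1.2.2.2.1, ht1.2.2.2.2, hts, htw, hth, htE⟩
      · rw [Nat.le_div_iff_mul_le hg.1, mul_comm]
        exact ht1.2.1
      · rw [Nat.le_div_iff_mul_le hg.1, mul_comm]
        exact ht1.2.2.1
    · intro a ha b hb hab
      have ha' : a ∈ T'.filter (fun t => (t.1, EE s t.1 (fv α β (t.2.1 : ℤ) (t.2.2 : ℤ))) =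
        (g, E)) := ha
      have hb' : b ∈ T'.filter (fun t => (t.1, EE s t.1 (fv α β (t.2.1 : ℤ) (t.2.2 : ℤ))) =
        (g, E)) := hb
      rw [mem_filter, Prod.mk.injEq] at ha' hb'
      exact Prod.ext (ha'.2.1.trans hb'.2.1.symm) hab
  have hlog : 0 ≤ (Real.log y) ^ 3 := pow_nonneg (Real.log_natCast_nonneg y) _
  calc ∑ t ∈ T', (2 : ℝ) ^ Module.finrank ℤ
          (EAB (t.1 * fv α β (t.2.1 : ℤ) (t.2.2 : ℤ) 0)
            (t.1 * fv α β (t.2.1 : ℤ) (t.2.2 : ℤ) 1)).toAffine.Point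
      ≤ ∑ t ∈ T', c1 * (4 ^ t.1.primeFactors.card *
        (NL (∏ j, s j) (LR s (EE s t.1 (fv α β (t.2.1 : ℤ) (t.2.2 : ℤ)))) : ℝ)) := sum_le_sum h1
    _ = ∑ x ∈ Icc 1 X ×ˢ P.powerset, ∑ t ∈ T'.filter (fun t =>
          (t.1, EE s t.1 (fv α β (t.2.1 : ℤ) (t.2.2 : ℤ))) = x), c1 * (4 ^ t.1.primeFactors.card *
        (NL (∏ j, s j) (LR s (EE s t.1 (fv α β (t.2.1 : ℤ) (t.2.2 : ℤ)))) : ℝ)) :=
        (sum_fiberwise_of_maps_to hmaps _).symm
    _ = ∑ x ∈ Icc 1 X ×ˢ P.powerset, ((T'.filter (fun t =>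
          (t.1, EE s t.1 (fv α β (t.2.1 : ℤ) (t.2.2 : ℤ))) = x)).card : ℝ) *
          (c1 * (4 ^ x.1.primeFactors.card * (NL (∏ j, s j) (LR s x.2) : ℝ))) := by
        apply sum_congr rfl
        intro x _
        rw [← nsmul_eq_mul, ← sum_const]
        apply sum_congr rfl
        intro t ht
        rw [mem_filter] at ht
        rw [← ht.2]
    _ ≤ ∑ x ∈ Icc 1 X ×ˢ P.powerset, (C * ((X ^ 2 / x.1 : ℕ) : ℝ) ^ 2 *
          2 ^ x.1.primeFactors.card * (1 / 2) ^ P.card *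
        (∏ j, gw 1 3 (s j)) * (∏ j, gw 1 3 (w j) / w j) * (∏ j, 1 / (h j : ℝ)) /
        (Real.log y) ^ 3) *
          (c1 * (4 ^ x.1.primeFactors.card * (NL (∏ j, s j) (LR s x.2) : ℝ))) := by
        apply sum_le_sum
        intro x hx
        rw [mem_product] at hx
        exact mul_le_mul_of_nonneg_right (hfib x.1 hx.1 x.2) (by positivity)
    _ = C * c1 * Q / (Real.log y) ^ 3 * NR s *
          ∑ g ∈ Icc 1 X, ((X ^ 2 / g : ℕ) : ℝ) ^ 2 * 8 ^ g.primeFactors.card := by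
        rw [sum_product]
        unfold NR
        rw [← hP, mul_sum (s := Icc 1 X)]
        apply sum_congr rfl
        intro g _
        have e8 : (8 : ℝ) ^ g.primeFactors.card =
            2 ^ g.primeFactors.card * 4 ^ g.primeFactors.card := by
          rw [← mul_pow]; norm_num
        rw [e8, mul_sum, mul_sum, sum_mul]
        apply sum_congr rfl
        intro E _
        rw [hQ]
        ring
    _ ≤ C * c1 * Q / (Real.log y) ^ 3 * NR s * (Cs * (X : ℝ) ^ 4) := by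
        apply mul_le_mul_of_nonneg_left (hCs X)
        have hgs : ∀ j, 0 ≤ gw 1 3 (s j) := fun j => gw_nonneg zero_le_one (by omega)
          ((mem_Tup'.1 hs).1 j |> fun h => Nat.mem_divisors.2 ⟨h, PP_ne_zero z y⟩)
        have hgw : ∀ j, 0 ≤ gw 1 3 (w j) := fun j => gw_nonneg zero_le_one (by omega)
          ((mem_Tup'.1 hw).1 j |> fun h => Nat.mem_divisors.2 ⟨h, PP_ne_zero z y⟩)
        have hQ0 : 0 ≤ Q := by
          rw [hQ]
          refine mul_nonneg (mul_nonneg (prod_nonneg fun j _ => hgs j)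
            (prod_nonneg fun j _ => div_nonneg (hgw j) (Nat.cast_nonneg _)))
            (prod_nonneg fun j _ => by positivity)
        have hNR : 0 ≤ NR s := by
          unfold NR
          exact mul_nonneg (by positivity) (sum_nonneg fun _ _ => Nat.cast_nonneg _)
        exact mul_nonneg (div_nonneg (mul_nonneg (mul_nonneg hC0 hc10) hQ0) hlog) hNR
    _ = _ := by
        have e2 : (∏ j, (4 : ℝ) ^ (w j).primeFactors.card * (gw 1 3 (w j) / w j)) =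
            4 ^ (∑ j, (w j).primeFactors.card) * ∏ j, (gw 1 3 (w j) / w j) := by
          rw [prod_mul_distrib, prod_pow_eq_pow_sum]
        rw [e2, hc1, hQ]
        ring

end Pool.Agent.K6.H34.TT
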