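import Pool.Agent.K6.H34.TT.StmX

/-!
# Project TT: from the box to the curves ordered by height

Adapted from `Pool.Agent.W307.RT.Box` (`final_of`) and `Pool.Agent.W307.RT.Tors`.
-/

set_option autoImplicit false

namespace Pool.Agent.K6.H34.TT

open Finset Filter Pool.Agent.W262.RK Pool.Agent.W307.RT

/-- there are many curves in the family -/
def LOWS (S : ℕ → Finset (ℤ × ℤ)) : Prop := ∃ (c : ℝ) (C T0 : ℕ), 0 < c ∧ ∀ T H : ℕ, T0 ≤ T →
  C * T ^ 6 ≤ H → c * T ^ 2 ≤ ((S H).card : ℝ)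

lemma tendsto_of_lows {S : ℕ → Finset (ℤ × ℤ)} (h : LOWS S) :
    Tendsto (fun H : ℕ => (S H).card) atTop atTop := by
  obtain ⟨c, C, T0, hc, h⟩ := h
  rw [tendsto_atTop_atTop]
  intro b
  obtain ⟨n, hn⟩ := exists_nat_gt ((b : ℝ) / c)
  set T := max (max n T0) 1 with hT
  have h1 : (b : ℝ) ≤ c * (T : ℝ) ^ 2 := by
    rw [div_lt_iff₀ hc] at hn
    have hT1 : (1 : ℝ) ≤ T := by exact_mod_cast (le_max_right (max n T0) 1)
    have hTn : (n : ℝ) ≤ T := by
      exact_mod_cast (le_max_left n T0).trans (le_max_left (max n T0) 1)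
    have h2 : (T : ℝ) ≤ (T : ℝ) ^ 2 := by nlinarith
    nlinarith
  refine ⟨C * T ^ 6, fun H hH => ?_⟩
  have h3 := h T H ((le_max_right n T0).trans (le_max_left _ 1)) hH
  exact_mod_cast h1.trans h3

/-- from the box to the curves -/
theorem final_of (hP : PAR2) (hbox : BOX) {S : ℕ → Finset (ℤ × ℤ)} (hS : ∀ H, S H ⊆ Fam H)
    (hL : LOWS S) : ∃ C : ℝ, ∀ H : ℕ, ∑ c ∈ S H,
      (2 : ℝ) ^ Module.finrank ℤ (E c.1 c.2).toAffine.Point ≤ C * (S H).card := by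
  classical
  obtain ⟨C0', F, hF⟩ := hP
  obtain ⟨c, C1, T0, hc, hlow⟩ := hL
  obtain ⟨C, hC, hb⟩ := hbox
  set C0 := C0' + 1 with hC0
  have hF' : ∀ H : ℕ, ∀ x ∈ S H, (F x).1.natAbs ^ 6 ≤ C0 * H ∧ (F x).2.natAbs ^ 6 ≤ C0 * H := by
    intro H x hx
    obtain ⟨_, _, _, h1, h2, _⟩ := (hF H).2 x (hS H hx)
    have : C0' * H ≤ C0 * H := Nat.mul_le_mul_right _ (by omega)
    exact ⟨h1.trans this, h2.trans this⟩
  set D := C0 * C1 + 1 with hD
  have hD1 : 1 ≤ D := by omega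
  -- the sum is at most `C T ^ 2`
  have hsum : ∀ H T : ℕ, 1 ≤ T → (∀ x ∈ S H, (F x).1.natAbs ≤ T ∧ (F x).2.natAbs ≤ T) →
      ∑ x ∈ S H, (2 : ℝ) ^ Module.finrank ℤ (E x.1 x.2).toAffine.Point ≤ C * (T : ℝ) ^ 2 := by
    intro H T hT hx
    refine le_trans ?_ (hb T hT)
    obtain ⟨hinj, h2⟩ := hF H
    have hinj' : Set.InjOn F (S H : Set (ℤ × ℤ)) := hinj.mono (by
      intro x hx'
      exact hS H hx')
    have h3 : ∑ x ∈ S H, (2 : ℝ) ^ Module.finrank ℤ (E x.1 x.2).toAffine.Point =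
        ∑ t ∈ (S H).image F, (2 : ℝ) ^ Module.finrank ℤ (EAB t.1 t.2).toAffine.Point := by
      rw [sum_image hinj']
      apply sum_congr rfl
      intro x hx'
      obtain ⟨_, _, _, _, _, h4⟩ := h2 x (hS H hx')
      rw [h4]
    rw [h3]
    apply sum_le_sum_of_subset_of_nonneg
    · intro t ht
      obtain ⟨x, hx', rfl⟩ := mem_image.1 ht
      obtain ⟨a1, a2, a3, _, _, _⟩ := h2 x (hS H hx')
      have h5 := hx x hx'
      rw [mem_filter, mem_product, mem_Icc, mem_Icc]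
      refine ⟨⟨⟨?_, ?_⟩, ⟨?_, ?_⟩⟩, a1, a2, a3⟩ <;> omega
    · intro t _ _
      positivity
  refine ⟨C * ((D * (T0 + 1) : ℕ) : ℝ) ^ 2 + C * (2 * (D : ℝ)) ^ 2 / c, fun H => ?_⟩
  set K := (S H).card with hK
  by_cases hK0 : K = 0
  · have : S H = ∅ := card_eq_zero.1 hK0
    rw [this, sum_empty, hK0]
    simp
  have hK1 : (1 : ℝ) ≤ K := by exact_mod_cast Nat.one_le_iff_ne_zero.2 hK0
  have hq0 : 0 ≤ C * (2 * (D : ℝ)) ^ 2 / c := by positivity
  have hr0 : 0 ≤ C * ((D * (T0 + 1) : ℕ) : ℝ) ^ 2 := by positivity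
  set T := Nat.findGreatest (fun t => t ^ 6 ≤ C0 * H) (C0 * H) with hT
  have hle : ∀ x : ℕ, x ^ 6 ≤ C0 * H → x ≤ T := by
    intro x hx
    apply Nat.le_findGreatest
    · exact (Nat.le_self_pow (by omega) x).trans hx
    · exact hx
  have hTk : T ^ 6 ≤ C0 * H := by
    have : (fun t => t ^ 6 ≤ C0 * H) T :=
      Nat.findGreatest_spec (P := fun t => t ^ 6 ≤ C0 * H) (Nat.zero_le _)
        (by rw [zero_pow (by omega)]; exact Nat.zero_le _)
    exact this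
  have hxT : ∀ x ∈ S H, (F x).1.natAbs ≤ T ∧ (F x).2.natAbs ≤ T := fun x hx =>
    ⟨hle _ (hF' H x hx).1, hle _ (hF' H x hx).2⟩
  rcases Nat.lt_or_ge T (D * (T0 + 1)) with hlt | hge
  · have h1 := hsum H (D * (T0 + 1)) (Nat.mul_pos hD1 (Nat.succ_pos _)) fun x hx =>
      ⟨(hxT x hx).1.trans hlt.le, (hxT x hx).2.trans hlt.le⟩
    calc _ ≤ C * ((D * (T0 + 1) : ℕ) : ℝ) ^ 2 := h1
      _ ≤ C * ((D * (T0 + 1) : ℕ) : ℝ) ^ 2 * K := le_mul_of_one_le_right hr0 hK1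
      _ ≤ _ := by
        apply mul_le_mul_of_nonneg_right _ (by linarith)
        linarith
  · have hT1 : 1 ≤ T := (Nat.mul_pos hD1 (Nat.succ_pos _)).trans_le hge
    have h1 := hsum H T hT1 hxT
    set T' := T / D with hT'
    have hT'0 : T0 + 1 ≤ T' := by
      rw [hT', Nat.le_div_iff_mul_le hD1, mul_comm]
      exact hge
    have h2 : T' * D ≤ T := Nat.div_mul_le_self T D
    have h3 : C1 * T' ^ 6 ≤ H := by
      have a1 : (T' * D) ^ 6 ≤ C0 * H := (Nat.pow_le_pow_left h2 6).trans hTk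
      rw [mul_pow] at a1
      have a2 : D ≤ D ^ 6 := Nat.le_self_pow (by omega) D
      have a3 : T' ^ 6 * (C0 * C1) ≤ C0 * H :=
        (Nat.mul_le_mul_left _ (by omega : C0 * C1 ≤ D ^ 6)).trans a1
      have a4 : C0 * (C1 * T' ^ 6) ≤ C0 * H := by
        calc C0 * (C1 * T' ^ 6) = T' ^ 6 * (C0 * C1) := by ring
          _ ≤ _ := a3
      exact Nat.le_of_mul_le_mul_left a4 (by omega)
    have h4 := hlow T' H (by omega) h3
    have h5 : T ≤ 2 * D * T' := by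
      have a1 : T < D * (T' + 1) := by
        rw [mul_comm]
        exact Nat.lt_mul_of_div_lt (by rw [← hT']; omega) hD1
      have a2 : D * (T' + 1) ≤ 2 * D * T' := by nlinarith
      omega
    have h6 : (T : ℝ) ≤ 2 * D * T' := by exact_mod_cast h5
    calc _ ≤ C * (T : ℝ) ^ 2 := h1
      _ ≤ C * (2 * D * T') ^ 2 := by
        apply mul_le_mul_of_nonneg_left _ hC
        exact pow_le_pow_left₀ (Nat.cast_nonneg _) h6 2
      _ = C * (2 * (D : ℝ)) ^ 2 / c * (c * (T' : ℝ) ^ 2) := by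
        field_simp
      _ ≤ C * (2 * (D : ℝ)) ^ 2 / c * K := mul_le_mul_of_nonneg_left h4 hq0
      _ ≤ _ := by
        apply mul_le_mul_of_nonneg_right _ (by linarith)
        linarith

/-- the curves with torsion group `Z/2 x Z/2` have full 2-torsion -/
lemma famX_sub (H : ℕ) : FamX H ⊆ Fam H := by
  classical
  intro c hc
  unfold FamX at hc
  unfold Fam
  rw [mem_filter] at hc ⊢
  obtain ⟨h1, h2, h3, h4, h5, ⟨e⟩⟩ := hc
  refine ⟨h1, h2, h3, h4, h5, ?_⟩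
  refine ⟨(AddCommGroup.torsion (E c.1 c.2).toAffine.Point).subtype.comp e.toAddMonoidHom, ?_⟩
  intro x y hxy
  apply e.injective
  exact Subtype.ext hxy

end Pool.Agent.K6.H34.TT
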