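import Pool.Agent.W762.RK2.EXP4b
import Pool.Agent.W262.RK.MA
import Pool.Agent.K6.H34.TT.Stm

/-!
# Project TT, part MAR: the average of `NR`

Adapted from `Pool.Agent.W762.RK2.EXP4b` of the starting library.
-/

set_option autoImplicit false

namespace Pool.Agent.K6.H34.TT

open Finset Pool.Agent.W262.RK Pool.Agent.W108.RK Pool.Agent.W762.RK2

/-- the direction of the class -/
def ec3 (c : Fin 3) : Bool × Bool :=
  if c = 0 then (true, true) else if c = 1 then (true, false) else (false, true)

/-- the allowed types `(v, χ)` for the class `c` -/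
def A3 (c : Fin 3) (v x : Bool × Bool) : Bool :=
  (decide (v = (false, false)) && (decide (x = (false, false)) || decide (x = (ec3 c).swap))) ||
    (decide (v = ec3 c) && decide (x = (false, false)))

/-- the index set: `(j, v, χ)` -/
def I3 : Type := {i : Fin 3 × (Bool × Bool) × (Bool × Bool) // A3 i.1 i.2.1 i.2.2 = true}

instance : Fintype I3 := by unfold I3; infer_instance

instance : DecidableEq I3 := by unfold I3; infer_instance

/-- the symbol `(d i / d i')` occurs if `χ_{i'}(v_i) = 1` -/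
def L3 (i i' : I3) : Bool := xor (i'.1.2.2.1 && i.1.2.1.1) (i'.1.2.2.2 && i.1.2.1.2)

lemma loc_id3 (c : Fin 3) (v : Bool × Bool) (h g : Bool) :
    (ind (LC c true v.1 v.2 h g) + ind (LC c false v.1 v.2 h g)) / 2 =
      ∑ x : Bool × Bool, if A3 c v x = true then
        (1 / 2 : ℝ) * ((if x.1 = true then sg h else 1) * (if x.2 = true then sg g else 1))
          else 0 := by
  obtain ⟨v1, v2⟩ := v
  simp only [Fintype.sum_prod_type, Fintype.sum_bool]
  fin_cases c <;> cases v1 <;> cases v2 <;> cases h <;> cases g <;>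
    simp [A3, ec3, LC, ind, sg] <;> norm_num

variable {z y : ℕ}

/-- the local indicator -/
noncomputable def Il3 (s : Fin 3 → ℕ) (d : ℕ × ℕ) (e : Bool) (p : ℕ) : ℝ :=
  ind (∀ j, p ∣ s j → LC j e (dv p d.1) (dv p d.2) (sgn p d.1) (sgn p d.2))

lemma NR_eq (s : Fin 3 → ℕ) :
    NR s = ∑ d ∈ (∏ j, s j).divisors ×ˢ (∏ j, s j).divisors,
      ∏ p ∈ (∏ j, s j).primeFactors, (Il3 s d true p + Il3 s d false p) / 2 := by
  classical
  have h1 : ∀ E : Finset ℕ, (NL (∏ j, s j) (LR s E) : ℝ) =
      ∑ d ∈ (∏ j, s j).divisors ×ˢ (∏ j, s j).divisors,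
        ∏ p ∈ (∏ j, s j).primeFactors, Il3 s d (decide (p ∈ E)) p := by
    intro E
    unfold NL
    rw [Finset.card_filter]
    push_cast
    refine Finset.sum_congr rfl fun d _ => ?_
    unfold Il3
    rw [prod_ind]
    unfold ind LR
    congr
  unfold NR
  rw [Finset.sum_congr rfl fun E _ => h1 E, Finset.sum_comm, Finset.mul_sum]
  refine Finset.sum_congr rfl fun d _ => ?_
  exact avg _ (∏ j, s j).primeFactors (Finset.Subset.refl _) (Il3 s d) fun p hp hpA => absurd hp hpA

/-- the local term -/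
noncomputable def Tm3 (c : ℕ) (ξ : Pr z y → Option (Fin 3 × (Bool × Bool))) (p : Pr z y) : ℝ :=
  (ξ p).elim 1 fun a => 1 / ((p : ℝ) - c) * ((ind (LC a.1 true a.2.1 a.2.2
    (sgn p (D1 ξ)) (sgn p (D2 ξ))) + ind (LC a.1 false a.2.1 a.2.2
    (sgn p (D1 ξ)) (sgn p (D2 ξ)))) / 2)

lemma lhs_eq3 (c : ℕ) :
    ∑ s ∈ Tup (Fin 3) z y, NR s * ∏ j, gw 1 c (s j) =
      ∑ ξ : Pr z y → Option (Fin 3 × (Bool × Bool)), ∏ p, Tm3 c ξ p := by
  have h1 : ∀ s ∈ Tup (Fin 3) z y, NR s * ∏ j, gw 1 c (s j) =
      ∑ d ∈ (∏ j, s j).divisors ×ˢ (∏ j, s j).divisors,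
        (∏ p ∈ (∏ j, s j).primeFactors, (Il3 s d true p + Il3 s d false p) / 2) *
          ∏ j, gw 1 c (s j) := by
    intro s hs
    rw [NR_eq, Finset.sum_mul]
  rw [Finset.sum_congr rfl h1, sum_big fun s d =>
    (∏ p ∈ (∏ j, s j).primeFactors, (Il3 s d true p + Il3 s d false p) / 2) *
          ∏ j, gw 1 c (s j)]
  refine Finset.sum_congr rfl fun ξ _ => ?_
  have h2 : ∏ j, gw 1 c (SS ξ j) = ∏ p : Pr z y, ((ξ p).map Prod.fst).elim 1
      fun _ => 1 / ((p : ℝ) - c) := prod_gw (fun _ => 1) c _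
  have h3 : ∏ j, SS ξ j = nb fun p => ((ξ p).map Prod.fst).isSome := prod_Dl _
  rw [h2, h3, prod_pf _ fun p => (Il3 (SS ξ) (D1 ξ, D2 ξ) true p +
    Il3 (SS ξ) (D1 ξ, D2 ξ) false p) / 2, ← Finset.prod_mul_distrib]
  refine Finset.prod_congr rfl fun p _ => ?_
  unfold Tm3
  cases hx : ξ p with
  | none => simp
  | some a =>
    have h4 : ∀ e, Il3 (SS ξ) (D1 ξ, D2 ξ) e p =
        ind (LC a.1 e a.2.1 a.2.2 (sgn p (D1 ξ)) (sgn p (D2 ξ))) := by
      intro e
      unfold Il3
      have e1 : dv p (D1 ξ : ℤ) = a.2.1 := by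
        have : b1 (ξ p) = a.2.1 := by rw [hx]; rfl
        rw [← this]
        unfold dv
        rw [Bool.eq_iff_iff, decide_eq_true_iff, Int.natCast_dvd_natCast]
        exact dvd_nb _ p
      have e2 : dv p (D2 ξ : ℤ) = a.2.2 := by
        have : b2 (ξ p) = a.2.2 := by rw [hx]; rfl
        rw [← this]
        unfold dv
        rw [Bool.eq_iff_iff, decide_eq_true_iff, Int.natCast_dvd_natCast]
        exact dvd_nb _ p
      have e3 : ∀ j, (p : ℕ) ∣ SS ξ j ↔ j = a.1 := by
        intro j
        unfold SS Dl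
        rw [dvd_nb, decide_eq_true_iff]
        show (ξ p).map Prod.fst = some j ↔ j = a.1
        rw [hx]
        simp [eq_comm]
      congr 1
      simp only [e1, e2, e3, forall_eq]
    simp only [h4]
    simp only [Option.map_some, Option.isSome_some, if_true, Option.elim]
    ring

lemma sum_I3 (F : Fin 3 × (Bool × Bool) × (Bool × Bool) → ℝ) :
    ∑ i : I3, F i.1 = ∑ r, if A3 r.1 r.2.1 r.2.2 = true then F r else 0 := by
  rw [← Finset.sum_filter]
  exact (Finset.sum_subtype (univ.filter fun r : Fin 3 × (Bool × Bool) × (Bool × Bool) =>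
    A3 r.1 r.2.1 r.2.2 = true) (fun x => by simp) F).symm

/-- forget the character -/
def fg3 (x : Option I3) : Option (Fin 3 × (Bool × Bool)) :=
  x.map fun i => (i.1.1, i.1.2.1)

/-- the local factor -/
noncomputable def G3 (c : ℕ) (ξ : Pr z y → Option (Fin 3 × (Bool × Bool))) (p : Pr z y)
    (x : Option I3) : ℝ :=
  x.elim 1 fun i => 1 / ((p : ℝ) - c) * ((1 / 2 : ℝ) *
    ((if i.1.2.2.1 = true then sg (sgn p (D1 ξ)) else 1) *
      (if i.1.2.2.2 = true then sg (sgn p (D2 ξ)) else 1)))

lemma sum_G3 (c : ℕ) (ξ : Pr z y → Option (Fin 3 × (Bool × Bool))) (p : Pr z y) :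
    ∑ x ∈ univ.filter (fun x : Option I3 => fg3 x = ξ p), G3 c ξ p x = Tm3 c ξ p := by
  rw [Finset.sum_filter, Fintype.sum_option]
  unfold Tm3
  cases hx : ξ p with
  | none => simp [fg3, G3]
  | some a =>
    obtain ⟨j, v⟩ := a
    have h0 : (if fg3 (none : Option I3) = some (j, v) then G3 c ξ p none else 0) = 0 := by
      rw [if_neg]
      simp [fg3]
    rw [h0, zero_add]
    set F : Fin 3 × (Bool × Bool) × (Bool × Bool) → ℝ :=
      fun r : Fin 3 × (Bool × Bool) × (Bool × Bool) =>
          if r.1 = j ∧ r.2.1 = v then 1 / ((p : ℝ) - c) * ((1 / 2 : ℝ) *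
            ((if r.2.2.1 = true then sg (sgn p (D1 ξ)) else 1) *
            (if r.2.2.2 = true then sg (sgn p (D2 ξ)) else 1))) else 0 with hF
    have h1 : ∀ i : I3, (if fg3 (some i) = some (j, v) then G3 c ξ p (some i) else 0) =
        F i.1 := by
      intro i
      refine if_congr ?_ rfl rfl
      simp only [fg3, Option.map_some, Option.some.injEq, Prod.mk.injEq]
    refine (Finset.sum_congr rfl fun i _ => h1 i).trans ((sum_I3 F).trans ?_)
    rw [Fintype.sum_prod_type, Finset.sum_eq_single j]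
    · rw [Fintype.sum_prod_type, Finset.sum_eq_single v]
      · show _ = 1 / ((p : ℝ) - c) * _
        rw [loc_id3 j v, Finset.mul_sum]
        refine Finset.sum_congr rfl fun x _ => ?_
        simp only [hF, and_self, if_true, mul_ite, mul_zero]
      · intro v' _ hv'
        refine Finset.sum_eq_zero fun x _ => ?_
        simp [hF, hv']
      · intro h
        exact absurd (Finset.mem_univ _) h
    · intro j' _ hj'
      refine Finset.sum_eq_zero fun x _ => ?_
      simp [hF, hj']
    · intro h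
      exact absurd (Finset.mem_univ _) h

lemma A3_orth : ∀ (c : Fin 3) (v x : Bool × Bool), A3 c v x = true →
    xor (x.1 && v.1) (x.2 && v.2) = false := by
  decide

lemma rhs_term3 (c : ℕ) (ξ : Pr z y → Option (Fin 3 × (Bool × Bool))) (l : Pr z y → Option I3)
    (h : ∀ p, fg3 (l p) = ξ p) :
    (∏ i, gw (1 / 2) c (Dl l i)) * Pool.Agent.W262.RK.Sym L3 (fun _ => 1) (Dl l) =
      ∏ p, G3 c ξ p (l p) := by
  rw [prod_gw (fun _ => (1 / 2 : ℝ)), Sym_Dl, ← Finset.prod_mul_distrib, ← Finset.prod_mul_distrib]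
  refine Finset.prod_congr rfl fun p _ => ?_
  cases hl : l p with
  | none =>
    have h0 : ∀ q, lk L3 (l q) none = false := by
      intro q
      cases l q <;> rfl
    simp [h0, G3]
  | some i =>
    have hAl := A3_orth _ _ _ i.2
    have h1 : ∀ q, lk L3 (l q) (some i) =
        xor (i.1.2.2.1 && b1 (ξ q)) (i.1.2.2.2 && b2 (ξ q)) := by
      intro q
      rw [← h q]
      cases hq : l q with
      | none =>
        show false = xor (i.1.2.2.1 && false) (i.1.2.2.2 && false)
        simp
      | some i' => rfl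
    have h2 : ∏ q : Pr z y, (if lk L3 (l q) (some i) = true then Jr (q : ℕ) p else 1) =
        ((if i.1.2.2.1 = true then sg (sgn p (D1 ξ)) else 1) *
      (if i.1.2.2.2 = true then sg (sgn p (D2 ξ)) else 1)) := by
      have h3 : ∀ a : Bool, ∀ b : Pr z y → Bool, (if a = true then sg (sgn p (nb b : ℤ)) else 1) =
          ∏ q : Pr z y, if a = true then (if q ≠ p ∧ b q = true then Jr (q : ℕ) p else 1)
            else 1 := by
        intro a b
        cases a
        · simp
        · simp only [if_true]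
          exact sgn_nb b p
      unfold D1 D2
      rw [h3, h3, ← Finset.prod_mul_distrib]
      refine Finset.prod_congr rfl fun q _ => ?_
      rw [h1]
      refine bits_eq q p _ _ _ _ fun hqp => ?_
      rw [hqp, ← h p, hl]
      exact hAl
    rw [h2]
    simp only [G3, Option.elim, Jr_one_left]
    ring

theorem exp3 (c z y : ℕ) : ∑ s ∈ Tup (Fin 3) z y, NR s * ∏ j, gw 1 c (s j) =
    ∑ d ∈ Tup I3 z y, (∏ i, gw (1 / 2) c (d i)) * Pool.Agent.W262.RK.Sym L3 (fun _ => 1) d := by
  classical
  rw [lhs_eq3, sum_Tup, ← Finset.sum_fiberwise univ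
    (fun (l : Pr z y → Option I3) => fun p => fg3 (l p))]
  refine Finset.sum_congr rfl fun ξ _ => ?_
  have h1 : (univ.filter fun l : Pr z y → Option I3 => (fun p => fg3 (l p)) = ξ) =
      Fintype.piFinset (fun p => univ.filter (fun x : Option I3 => fg3 x = ξ p)) := by
    ext l
    simp only [Finset.mem_filter, Finset.mem_univ, true_and, Fintype.mem_piFinset, funext_iff]
  rw [h1, Finset.prod_congr rfl fun p _ => (sum_G3 c ξ p).symm, Finset.prod_univ_sum]
  refine Finset.sum_congr rfl fun l hl => ?_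
  rw [Fintype.mem_piFinset] at hl
  exact (rhs_term3 c ξ l fun p => (Finset.mem_filter.1 (hl p)).2).symm

lemma L3_self (i : I3) : L3 i i = false := A3_orth _ _ _ i.2

/-- the type: `0`: no symbol, not chosen; `1`: symbol; `2`: chosen -/
def ty (i : I3) : Fin 3 :=
  if i.1.2.1 ≠ (false, false) then 2 else if i.1.2.2 ≠ (false, false) then 1 else 0

lemma card_ty : ∀ t : Fin 3, (univ.filter (fun i : I3 => ty i = t)).card = 3 := by
  decide

lemma card_ty1 : ∀ c : Fin 3, (univ.filter (fun i : I3 => ty i ≠ 0 ∧ i.1.1 = c)).card = 2 := by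
  decide

lemma link : ∀ i j : I3, ty i = 2 → ty j = 1 → L3 i j = L3 j i → i.1.1 = j.1.1 := by
  decide

/-- the largest unlinked set -/
lemma comb3 (U : Finset I3) (hU : ∀ i ∈ U, ∀ j ∈ U, L3 i j = L3 j i) : U.card ≤ 6 := by
  by_cases h2 : ∃ i ∈ U, ty i = 2
  · by_cases h1 : ∃ j ∈ U, ty j = 1
    · obtain ⟨i, hi, hi2⟩ := h2
      obtain ⟨j, hj, hj1⟩ := h1
      have hsub : U ⊆ (univ.filter (fun k : I3 => ty k = 0)) ∪
          (univ.filter (fun k : I3 => ty k ≠ 0 ∧ k.1.1 = i.1.1)) := by
        intro k hk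
        rw [mem_union, mem_filter, mem_filter]
        by_cases h0 : ty k = 0
        · exact Or.inl ⟨mem_univ _, h0⟩
        · right
          refine ⟨mem_univ _, h0, ?_⟩
          have hij := link i j hi2 hj1 (hU i hi j hj)
          have h3 : ty k = 1 ∨ ty k = 2 := by
            revert h0
            generalize ty k = t
            revert t
            decide
          rcases h3 with h3 | h3
          · exact (link i k hi2 h3 (hU i hi k hk)).symm
          · exact (link k j h3 hj1 (hU k hk j hj)).trans hij.symm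
      calc U.card ≤ _ := card_le_card hsub
        _ ≤ 3 + 2 := (card_union_le _ _).trans (by rw [card_ty, card_ty1])
        _ ≤ 6 := by norm_num
    · push Not at h1
      have hsub : U ⊆ (univ.filter (fun k : I3 => ty k = 0)) ∪
          (univ.filter (fun k : I3 => ty k = 2)) := by
        intro k hk
        rw [mem_union, mem_filter, mem_filter]
        have h3 : ty k = 0 ∨ ty k = 2 := by
          have h0 := h1 k hk
          revert h0
          generalize ty k = t
          revert t
          decide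
        rcases h3 with h3 | h3
        · exact Or.inl ⟨mem_univ _, h3⟩
        · exact Or.inr ⟨mem_univ _, h3⟩
      calc U.card ≤ _ := card_le_card hsub
        _ ≤ 3 + 3 := (card_union_le _ _).trans (by rw [card_ty, card_ty])
        _ ≤ 6 := by norm_num
  · push Not at h2
    have hsub : U ⊆ (univ.filter (fun k : I3 => ty k = 0)) ∪
        (univ.filter (fun k : I3 => ty k = 1)) := by
      intro k hk
      rw [mem_union, mem_filter, mem_filter]
      have h3 : ty k = 0 ∨ ty k = 1 := by
        have h0 := h2 k hk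
        revert h0
        generalize ty k = t
        revert t
        decide
      rcases h3 with h3 | h3
      · exact Or.inl ⟨mem_univ _, h3⟩
      · exact Or.inr ⟨mem_univ _, h3⟩
    calc U.card ≤ _ := card_le_card hsub
      _ ≤ 3 + 3 := (card_union_le _ _).trans (by rw [card_ty, card_ty])
      _ ≤ 6 := by norm_num

/-- **MAR** -/
theorem mar : MAR := by
  intro c
  obtain ⟨z0, hz0⟩ := at_thm I3 (fun _ => 1 / 2) L3 (fun _ => 1) c (3 : ℝ)
    (fun _ => by norm_num) L3_self (fun _ => one_ne_zero) (fun U hU => by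
      rw [sum_const, nsmul_eq_mul]
      have := comb3 U hU
      have h2 : (U.card : ℝ) ≤ 6 := by exact_mod_cast this
      linarith)
  refine ⟨z0, fun z hz => ?_⟩
  obtain ⟨C, hC⟩ := hz0 z hz
  refine ⟨C, fun y hy => ?_⟩
  rw [exp3]
  refine (le_trans (le_abs_self _) (hC y hy)).trans (le_of_eq ?_)
  rw [show (3 : ℝ) = ((3 : ℕ) : ℝ) by norm_num, Real.rpow_natCast]

end Pool.Agent.K6.H34.TT
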