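import Pool.Agent.K6.H34.TT.Fin
import Pool.Agent.K6.H34.TT.Mar
import Pool.Agent.K6.H34.TT.Avg
import Pool.Agent.K6.H38.TT.Cntr
import Pool.Agent.K6.H43.TT.SGN
import Pool.Agent.K6.H43.TT.AVHR
import Pool.Agent.K6.H5.TT.Omg
import Pool.Agent.K6.H5.TT.Low2
import Pool.Agent.K6.H35.TT.PAR2
import Pool.Agent.K6.H25.TT.Box
import Pool.Agent.W340.RT.SVR2
import Pool.Agent.W45.RT.ANT
import Pool.Agent.W405.RK2.RS
import Pool.Agent.W591.RK2.RVRU
import Pool.Agent.W358.RK2.GR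

/-!
# Project TT: assembly
-/

set_option autoImplicit false

namespace Pool.Agent.K6.H34.TT

open Finset Pool.Agent.W307.RT

theorem cntr : CNTR :=
  Pool.Agent.K6.H38.TT.cntr_of Pool.Agent.W340.RT.SVR2.svr2 Pool.Agent.K6.H43.TT.avhr
    Pool.Agent.K6.H43.TT.sgn

theorem box : BOX :=
  Pool.Agent.K6.H25.TT.box_of (avgr_of cntr Pool.Agent.K6.H5.TT.omg
    (Pool.Agent.W45.RT.ant_of Pool.Agent.W405.RK2.rs Pool.Agent.W591.RK2.rv
      Pool.Agent.W591.RK2.ru Pool.Agent.W358.RK2.gr) mar subr rankr) Pool.Agent.K6.H5.TT.omg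

/-- the average over all the curves with full 2-torsion -/
theorem main2 : ∃ C : ℝ, ∀ H : ℕ, ∑ c ∈ Fam H,
    (2 : ℝ) ^ Module.finrank ℤ (E c.1 c.2).toAffine.Point ≤ C * (Fam H).card :=
  final_of Pool.Agent.K6.H35.TT.par2 box (fun _ => Finset.Subset.refl _) Pool.Agent.K6.H5.TT.low2

end Pool.Agent.K6.H34.TT
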