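import Pool.Agent.W571.RT.Rank2
import Pool.Agent.K6.H34.TT.Sub

/-!
# Project TT, part RANKR: the bound of the rank at a point

Adapted from `Pool.Agent.W571.RT.Rank2` of the starting library.
-/

set_option autoImplicit false

namespace Pool.Agent.K6.H34.TT

open Finset Pool.Agent.W262.RK Pool.Agent.W307.RT Pool.Agent.W571.RT

lemma pg_prod (g : ℕ) (x : ℤ) : pg g x =
    ((∏ p ∈ x.natAbs.primeFactors, if p ∣ g then 1 else p ^ x.natAbs.factorization p : ℕ) : ℤ) := rfl

lemma pg_pos (g : ℕ) (x : ℤ) : 0 < pg g x := by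
  rw [pg_prod]
  have : 0 < ∏ p ∈ x.natAbs.primeFactors, (if p ∣ g then 1 else p ^ x.natAbs.factorization p) := by
    apply prod_pos
    intro p hp
    split_ifs
    · exact one_pos
    · exact pow_pos (Nat.prime_of_mem_primeFactors hp).pos _
  exact_mod_cast this

lemma pg_dvd (g : ℕ) {x : ℤ} (hx : x ≠ 0) : pg g x ∣ x := by
  rw [pg_prod, Int.natCast_dvd]
  have h0 : x.natAbs ≠ 0 := Int.natAbs_ne_zero.2 hx
  conv_rhs => rw [← Nat.factorization_prod_pow_eq_self h0]
  rw [Finsupp.prod]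
  apply prod_dvd_prod_of_dvd
  intro p _
  split_ifs
  · exact one_dvd _
  · exact dvd_rfl

lemma fact_pg (g : ℕ) {x : ℤ} {p : ℕ} (hp : p.Prime) :
    (pg g x).natAbs.factorization p = if p ∣ g then 0 else x.natAbs.factorization p := by
  rw [pg_prod, Int.natAbs_natCast, Nat.factorization_prod_apply]
  · have h1 : ∀ q ∈ x.natAbs.primeFactors, (if q ∣ g then 1 else
        q ^ x.natAbs.factorization q).factorization p =
        if q = p then (if p ∣ g then 0 else x.natAbs.factorization p) else 0 := by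
      intro q hq
      have hqp := Nat.prime_of_mem_primeFactors hq
      by_cases hqg : q ∣ g
      · rw [if_pos hqg]
        by_cases hpq : q = p
        · rw [if_pos hpq, ← hpq, if_pos hqg]; simp
        · rw [if_neg hpq]; simp
      · rw [if_neg hqg, hqp.factorization_pow]
        by_cases hpq : q = p
        · rw [if_pos hpq, ← hpq, if_neg hqg, Finsupp.single_eq_same]
        · rw [if_neg hpq, Finsupp.single_eq_of_ne (Ne.symm hpq)]
    rw [sum_congr rfl h1, Finset.sum_ite_eq']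
    split_ifs with h2 h3 h4
    · rfl
    · rfl
    · rfl
    · rw [Nat.mem_primeFactors] at h2
      push Not at h2
      by_cases h5 : x.natAbs = 0
      · rw [h5]; simp
      · symm
        apply Nat.factorization_eq_zero_of_not_dvd
        intro h6
        exact h5 (h2 hp h6)
  · intro q hq
    split_ifs
    · exact one_ne_zero
    · exact pow_ne_zero _ (Nat.prime_of_mem_primeFactors hq).ne_zero

lemma dvd_pg (g : ℕ) {x : ℤ} (hx : x ≠ 0) {p : ℕ} (hp : p.Prime) {k : ℕ} (hk : k ≠ 0) :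
    (p : ℤ) ^ k ∣ pg g x ↔ ¬ p ∣ g ∧ (p : ℤ) ^ k ∣ x := by
  have h0 : x.natAbs ≠ 0 := Int.natAbs_ne_zero.2 hx
  have h1 : (pg g x).natAbs ≠ 0 := Int.natAbs_ne_zero.2 (pg_pos g x).ne'
  have e : ∀ t : ℤ, t.natAbs ≠ 0 → ((p : ℤ) ^ k ∣ t ↔ k ≤ t.natAbs.factorization p) := by
    intro t ht
    rw [← Nat.cast_pow, Int.natCast_dvd, hp.pow_dvd_iff_le_factorization ht]
  rw [e _ h1, e _ h0, fact_pg g hp]
  split_ifs with h
  · constructor
    · intro h2; omega
    · intro h2; exact absurd h h2.1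
  · exact ⟨fun h2 => ⟨h, h2⟩, fun h2 => h2.2⟩

lemma dvd_pg1 (g : ℕ) {x : ℤ} (hx : x ≠ 0) {p : ℕ} (hp : p.Prime) :
    (p : ℤ) ∣ pg g x ↔ ¬ p ∣ g ∧ (p : ℤ) ∣ x := by
  have := dvd_pg g hx hp one_ne_zero
  rwa [pow_one] at this

variable {α β : Fin 3 → ℤ} {z : ℕ}

/-- a large prime divides at most one of the prime-to-`g` parts -/
lemma pg_un (hB : Bg α β z) {u v : ℤ} (huv : IsCoprime u v) (h0 : ∀ j, fv α β u v j ≠ 0) (g : ℕ)
    (p : ℕ) (hp : p.Prime) (hz : z < p) (j l : Fin 3) (hjl : j ≠ l) :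
    ¬ ((p : ℤ) ∣ pg g (fv α β u v j) ∧ (p : ℤ) ∣ pg g (fv α β u v l)) := by
  rintro ⟨h1, h2⟩
  exact fv_not_dvd hB hp hz huv hjl ((dvd_pg1 g (h0 j) hp).1 h1).2 ((dvd_pg1 g (h0 l) hp).1 h2).2

/-- the number of the primes outside `S1` -/
lemma badR (hB : Bg α β z) {y X K g : ℕ} (hg : g ≠ 0) {u v : ℤ}
    (hX : 1 ≤ X) (hy : 1 ≤ y) (h0 : ∀ j, fv α β u v j ≠ 0)
    (hb : ∀ j, (fv α β u v j).natAbs ≤ X ^ 3) (hK : X < (y + 1) ^ K)
    (hid : fv α β u v 0 - fv α β u v 1 = fv α β u v 2) :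
    ((2 * (g * fv α β u v 0) * (g * fv α β u v 1) *
      (g * fv α β u v 0 - g * fv α β u v 1)).natAbs.primeFactors.filter
        (fun q => ¬ q ∣ ∏ j, S1 z y (fun j => pg g (fv α β u v j)) j)).card ≤
      z + 9 * K + g.primeFactors.card +
        ∑ j, (S2 z y (fun j => pg g (fv α β u v j)) j).primeFactors.card := by
  set f : Fin 3 → ℤ := fun j => pg g (fv α β u v j) with hf
  have hsub : ((2 * (g * fv α β u v 0) * (g * fv α β u v 1) *
      (g * fv α β u v 0 - g * fv α β u v 1)).natAbs.primeFactors.filter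
        (fun q => ¬ q ∣ ∏ j, S1 z y f j)) ⊆
      (((Icc 1 z) ∪ univ.biUnion (fun j => (fv α β u v j).natAbs.primeFactors.filter (y < ·))) ∪
        g.primeFactors) ∪ univ.biUnion (fun j => (S2 z y f j).primeFactors) := by
    intro q hq
    rw [mem_filter] at hq
    have hp := Nat.prime_of_mem_primeFactors hq.1
    have hdv := Nat.dvd_of_mem_primeFactors hq.1
    rw [mem_union, mem_union, mem_union, mem_Icc]
    rcases Nat.lt_or_ge z q with h | h
    swap
    · exact Or.inl (Or.inl (Or.inl ⟨hp.one_lt.le, h⟩))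
    · by_cases hqg : q ∣ g
      · exact Or.inl (Or.inr (Nat.mem_primeFactors.2 ⟨hp, hqg, hg⟩))
      have hqi : Prime (q : ℤ) := Nat.prime_iff_prime_int.1 hp
      have hdv2 : (q : ℤ) ∣ 2 * (g * fv α β u v 0) * (g * fv α β u v 1) *
          (g * fv α β u v 0 - g * fv α β u v 1) := Int.natCast_dvd.2 hdv
      have hqg' : ¬ (q : ℤ) ∣ (g : ℤ) := fun h => hqg (Int.natCast_dvd_natCast.1 h)
      have hq2 : ¬ (q : ℤ) ∣ 2 := by
        intro h3
        have h4 : q ∣ 2 := by exact_mod_cast h3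
        have h5 := Nat.le_of_dvd (by norm_num) h4
        have := hB.1
        omega
      have hk : ∃ l, (q : ℤ) ∣ fv α β u v l := by
        rw [← mul_sub, hid] at hdv2
        rcases hqi.dvd_or_dvd hdv2 with h1 | h1
        · rcases hqi.dvd_or_dvd h1 with h2 | h2
          · rcases hqi.dvd_or_dvd h2 with h3 | h3
            · exact absurd h3 hq2
            · exact ⟨0, (hqi.dvd_or_dvd h3).resolve_left hqg'⟩
          · exact ⟨1, (hqi.dvd_or_dvd h2).resolve_left hqg'⟩
        · exact ⟨2, (hqi.dvd_or_dvd h1).resolve_left hqg'⟩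
      obtain ⟨l, hl⟩ := hk
      rcases Nat.lt_or_ge y q with hyq | hyq
      · left; left; right
        rw [mem_biUnion]
        refine ⟨l, mem_univ _, ?_⟩
        rw [mem_filter, Nat.mem_primeFactors]
        exact ⟨⟨hp, Int.natCast_dvd.1 hl, Int.natAbs_ne_zero.2 (h0 l)⟩, hyq⟩
      · right
        have hPS : q ∈ PS z y := mem_PS.2 ⟨⟨h, hyq⟩, hp⟩
        rw [mem_biUnion]
        refine ⟨l, mem_univ _, ?_⟩
        have hl1 : (q : ℤ) ∣ f l := (dvd_pg1 g (h0 l) hp).2 ⟨hqg, hl⟩
        have hsq : (q : ℤ) ^ 2 ∣ f l := by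
          by_contra hcon
          apply hq.2
          refine dvd_trans ?_ (dvd_prod_of_mem _ (mem_univ l))
          exact dvd_prod_of_mem _ (mem_filter.2 ⟨hPS, hl1, hcon⟩)
        rw [Nat.mem_primeFactors]
        refine ⟨hp, dvd_prod_of_mem _ (mem_filter.2 ⟨hPS, hsq⟩), ?_⟩
        exact prod_ne_zero_iff.2 fun p hp => (mem_PS.1 (mem_filter.1 hp).1).2.ne_zero
  have hone : ∀ j, ((fv α β u v j).natAbs.primeFactors.filter (y < ·)).card ≤ 3 * K := by
    intro j
    set S := (fv α β u v j).natAbs.primeFactors.filter (y < ·) with hS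
    have h1 : (y + 1) ^ S.card ≤ ∏ q ∈ S, q :=
      Finset.pow_card_le_prod _ _ _ (fun q hq => by
        have := (mem_filter.1 hq).2
        omega)
    have h2 : ∏ q ∈ S, q ∣ (fv α β u v j).natAbs :=
      (prod_dvd_prod_of_subset _ _ _ (filter_subset _ _)).trans (Nat.prod_primeFactors_dvd _)
    have h3 : ∏ q ∈ S, q ≤ (fv α β u v j).natAbs :=
      Nat.le_of_dvd (Nat.pos_of_ne_zero (Int.natAbs_ne_zero.2 (h0 j))) h2
    have h4 : (y + 1) ^ S.card < (y + 1) ^ (3 * K) := by
      calc (y + 1) ^ S.card ≤ X ^ 3 := h1.trans (h3.trans (hb j))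
        _ < ((y + 1) ^ K) ^ 3 := Nat.pow_lt_pow_left hK (by norm_num)
        _ = (y + 1) ^ (3 * K) := by rw [← pow_mul, mul_comm]
    exact ((Nat.pow_lt_pow_iff_right (by omega)).1 h4).le
  refine (card_le_card hsub).trans ((card_union_le _ _).trans (add_le_add
    ((card_union_le _ _).trans (add_le_add_left ((card_union_le _ _).trans
      (add_le_add ?_ ?_)) _)) card_biUnion_le))
  · simp
  · refine card_biUnion_le.trans ?_
    refine (sum_le_sum fun j _ => hone j).trans ?_
    rw [sum_const, card_univ, smul_eq_mul, Fintype.card_fin]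
    omega

lemma fin3 : ∀ j : Fin 3, j = 0 ∨ j = 1 ∨ j = 2 := by decide

/-- **RANKR** -/
theorem rankr : RANKR := by
  intro α β z hB hα hβ X y k g u v huv h0 hg hb hX hy hk
  have hid : fv α β u v 0 - fv α β u v 1 = fv α β u v 2 := by
    unfold fv
    rw [← hα, ← hβ]
    ring
  set x := fv α β u v with hx
  set f : Fin 3 → ℤ := fun j => pg g (x j) with hf
  set s := S1 z y f with hs
  have hz2 : 2 ≤ z := by have := hB.1; omega
  have hgz : (g : ℤ) ≠ 0 := by exact_mod_cast hg
  have hmem : s ∈ Tup (Fin 3) z y := S1_mem (fun p hp hzp j l hjl =>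
    pg_un hB huv h0 g p hp hzp j l hjl)
  have hmd : ∏ j, s j ∣ PP z y := Tup_prod_dvd hmem
  have hPSof : ∀ p : ℕ, p.Prime → p ∣ ∏ j, s j → p ∈ PS z y := fun p hp h =>
    (prime_dvd_PP hp).1 (h.trans hmd)
  have hodd2 : ∀ p : ℕ, p.Prime → p ∣ ∏ j, s j → p ≠ 2 := by
    intro p hp h
    have h1 := (mem_PS.1 (hPSof p hp h)).1.1
    omega
  have hdesc : DESC4 := Pool.Agent.W214.RK2.desc4
  have hm0 : ∏ j, s j ≠ 0 := by
    intro h
    rw [h, zero_dvd_iff] at hmd
    exact (PP_squarefree z y).ne_zero hmd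
  have hA0 : (g : ℤ) * x 0 ≠ 0 := mul_ne_zero hgz (h0 0)
  have hB0 : (g : ℤ) * x 1 ≠ 0 := mul_ne_zero hgz (h0 1)
  have hAB : (g : ℤ) * x 0 - g * x 1 = g * x 2 := by rw [← mul_sub, hid]
  have hAB0 : (g : ℤ) * x 0 ≠ g * x 1 := by
    intro h
    have h1 : (g : ℤ) * x 2 = 0 := by rw [← hAB, h, sub_self]
    exact mul_ne_zero hgz (h0 2) h1
  have hd := hdesc (∏ j, s j) (LR s (EE s g x)) (g * x 0) (g * x 1) hA0 hB0 hAB0
    (by
      rw [← Nat.not_even_iff_odd, even_iff_two_dvd]
      intro h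
      exact hodd2 2 Nat.prime_two h rfl)
    ((PP_squarefree z y).squarefree_of_dvd hmd)
    (fun p _ _ => xc_LR s _ p)
    (fun p hp hpd x' y' hy' hcurve e1 e2 he1 he2 hsq1 hsq2 j hj => by
      have hpp : p.Prime := Fact.out
      have hpi : Prime (p : ℤ) := Nat.prime_iff_prime_int.1 hpp
      have hjs := (S1_dvd_iff hpp).1 hj
      have hzp := (mem_PS.1 hjs.1).1.1
      have h1 := (dvd_pg1 g (h0 j) hpp).1 hjs.2.1
      have hpg : ¬ (p : ℤ) ∣ (g : ℤ) := fun h => h1.1 (Int.natCast_dvd_natCast.1 h)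
      have h2 : ¬ (p : ℤ) ^ 2 ∣ x j := fun h => hjs.2.2 ((dvd_pg g (h0 j) hpp two_ne_zero).2 ⟨h1.1, h⟩)
      have hoth : ∀ l, j ≠ l → ¬ (p : ℤ) ∣ x l := fun l hl => fv_not_dvd hB hpp hzp huv hl h1.2
      have hgl : ∀ l, ¬ (p : ℤ) ∣ x l → ¬ (p : ℤ) ∣ (g : ℤ) * x l := fun l hl h =>
        (hpi.dvd_or_dvd h).elim hpg hl
      have hgj : (p : ℤ) ∣ (g : ℤ) * x j := h1.2.mul_left _
      have hgj2 : ¬ (p : ℤ) ^ 2 ∣ (g : ℤ) * x j := by
        intro h
        have hc : IsCoprime ((p : ℤ) ^ 2) (g : ℤ) :=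
          ((Prime.coprime_iff_not_dvd hpi).2 hpg).pow_left
        exact h2 (hc.dvd_of_dvd_mul_left h)
      -- the sign
      have hkp : ¬ (p : ℤ) ∣ kp g x j := by
        have hj3 : j = 0 ∨ j = 1 ∨ j = 2 := fin3 j
        unfold kp
        rcases hj3 with rfl | rfl | rfl
        · simp only [if_true]
          rw [dvd_neg]
          exact hgl 1 (hoth 1 (by decide))
        · simp only [one_ne_zero, if_false, if_true]
          rw [dvd_neg]
          exact hgl 0 (hoth 0 (by decide))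
        · simp only [show (2 : Fin 3) ≠ 0 by decide, show (2 : Fin 3) ≠ 1 by decide, if_false]
          exact hgl 0 (hoth 0 (by decide))
      have hsgn : decide (p ∈ EE s g x) = sg0 p (kp g x j) := by
        unfold sg0
        rw [decide_eq_decide]
        unfold EE
        rw [mem_filter, Nat.mem_primeFactors]
        constructor
        · rintro ⟨_, l, hl, hl2⟩
          have : l = j := by
            by_contra hne
            have h3 := (S1_dvd_iff hpp).1 hl
            exact hoth l (Ne.symm hne) ((dvd_pg1 g (h0 l) hpp).1 h3.2.1).2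
          rwa [this] at hl2
        · intro h
          exact ⟨⟨hpp, hpd, hm0⟩, j, hj, h⟩
      have hL := Pool.Agent.W342.RK2.locl
      have hsq : jacobiSym (kp g x j * kp g x j) p = 1 := by
        rw [← pow_two]
        exact jac_sq hpp hkp
      rw [hsgn]
      have hj3 : j = 0 ∨ j = 1 ∨ j = 2 := fin3 j
      rcases hj3 with rfl | rfl | rfl
      · have hfin := hL 0 (fun _ => kp g x 0) false p (g * x 0) (g * x 1) (hodd2 p hpp hpd)
          (fun _ => hkp) (by
            unfold LocH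
            rw [if_pos rfl]
            exact ⟨hgj, hgj2, hgl 1 (hoth 1 (by decide)), hsq⟩) x' y' hy' hcurve e1 e2 he1 he2 hsq1 hsq2
        unfold LL at hfin
        rw [if_pos rfl] at hfin
        unfold LC
        rw [if_pos rfl]
        exact hfin
      · have hfin := hL 1 (fun _ => kp g x 1) false p (g * x 0) (g * x 1) (hodd2 p hpp hpd)
          (fun _ => hkp) (by
            unfold LocH
            rw [if_neg (by decide), if_pos rfl]
            exact ⟨hgj, hgj2, hgl 0 (hoth 0 (by decide)), hsq⟩) x' y' hy' hcurve e1 e2 he1 he2 hsq1 hsq2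
        unfold LL at hfin
        rw [if_neg (by decide), if_pos rfl] at hfin
        unfold LC
        rw [if_neg (by decide), if_pos rfl]
        exact hfin
      · have hfin := hL 2 (fun _ => kp g x 2) false p (g * x 0) (g * x 1) (hodd2 p hpp hpd)
          (fun _ => hkp) (by
            unfold LocH
            rw [if_neg (by decide), if_neg (by decide), if_pos rfl, hAB]
            exact ⟨hgj, hgj2, hgl 0 (hoth 0 (by decide)), hsq⟩) x' y' hy' hcurve e1 e2 he1 he2 hsq1 hsq2
        unfold LL at hfin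
        rw [if_neg (by decide), if_neg (by decide), if_pos rfl] at hfin
        unfold LC
        rw [if_neg (by decide), if_neg (by decide)]
        exact hfin)
  refine hd.trans (Nat.mul_le_mul_right _ ?_)
  have hc := badR (y := y) hB hg hX hy h0 hb hk hid
  rw [← hx, ← hf, ← hs] at hc
  calc 4 ^ (((2 * (g * x 0) * (g * x 1) * (g * x 0 - g * x 1)).natAbs.primeFactors.filter
        (fun q => ¬ q ∣ ∏ j, s j)).card + 2)
      ≤ 4 ^ ((z + 2) + 9 * k + g.primeFactors.card + ∑ j, (S2 z y f j).primeFactors.card) :=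
        Nat.pow_le_pow_right (by norm_num) (by omega)
    _ = _ := by
        rw [pow_add, pow_add, pow_add, pow_mul]

end Pool.Agent.K6.H34.TT
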