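import Pool.Agent.K6.H34.TT.Stm

/-!
# Project TT (helper34): the curves whose torsion group is exactly `Z/2 x Z/2`
-/

set_option autoImplicit false

namespace Pool.Agent.K6.H34.TT

open Finset

open Classical in
/-- The pairs `(A, B)` of integers such that `4 A³ + 27 B² ≠ 0`, there is no prime `p` with
`p⁴ ∣ A` and `p⁶ ∣ B`, the height `max (4 |A|³) (27 B²)` is at most `H`, and the torsion subgroup of
the group of the rational points of `y² = x³ + A x + B` is isomorphic to `Z/2 x Z/2`. -/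
noncomputable def FamX (H : ℕ) : Finset (ℤ × ℤ) :=
  ((Icc (-(H : ℤ)) H) ×ˢ (Icc (-(H : ℤ)) H)).filter (fun c : ℤ × ℤ =>
    4 * c.1 ^ 3 + 27 * c.2 ^ 2 ≠ 0 ∧ 4 * |c.1| ^ 3 ≤ H ∧ 27 * c.2 ^ 2 ≤ H ∧
    (∀ p : ℕ, p.Prime → ¬ ((p : ℤ) ^ 4 ∣ c.1 ∧ (p : ℤ) ^ 6 ∣ c.2)) ∧
    Nonempty (ZMod 2 × ZMod 2 ≃+ AddCommGroup.torsion (E c.1 c.2).toAffine.Point))

/-- TORX: if the roots `r₁, r₂, - r₁ - r₂` are congruent to `0, 1, -1` modulo `15` then all the
torsion points are of order at most two. (Reduction modulo `3`: four points, so the torsion prime to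
`3` is of order four. Reduction modulo `5`: at most ten points, so there is no point of order `3`.
See `Pool.Agent.W370.KE.Z` (`no_tors`) and `Pool.Agent.W275.FML` for the kernel of the reduction.
Or for the points of order `3` and `4` directly with the division polynomials modulo `3`, `5`.) -/
def TORX : Prop := ∀ r₁ r₂ : ℤ, r₁ % 15 = 0 → r₂ % 15 = 1 →
  ∀ P : (E (-(r₁ ^ 2 + r₁ * r₂ + r₂ ^ 2)) (r₁ * r₂ * (r₁ + r₂))).toAffine.Point,
    IsOfFinAddOrder P → P + P = 0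

/-- LOWX: there are many curves with torsion group `Z/2 x Z/2`; from `TORX`, with the coprime pairs
`0 < r₁, r₂ ≤ T`, `r₁ ≡ 0`, `r₂ ≡ 1` modulo `15`. -/
def LOWX : Prop := ∃ (c : ℝ) (C T0 : ℕ), 0 < c ∧ ∀ T H : ℕ, T0 ≤ T → C * T ^ 6 ≤ H →
  c * T ^ 2 ≤ ((FamX H).card : ℝ)

end Pool.Agent.K6.H34.TT
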